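import Pool.Agent.Helper46.C2.St

/-!
Project C2, module OD: every element satisfies `y ^ (2 ^ m) = y`.
-/

set_option autoImplicit false

namespace Pool.Agent.Helper84.C2

open Pool.Agent.Helper46.C2 Pool.Agent.Helper43.GD

theorem unit_aux {L : Type} [CommRing L] {k : ℕ} {x : Lˣ} (h : R2 k L x) :
    ∃ u : L, ((k : L) * (x : L) ^ (k - 1) - 1) * u = 1 := by
  rcases Nat.even_or_odd k with hk | hk
  · obtain ⟨j, rfl⟩ := hk
    refine ⟨-1, ?_⟩
    have : ((j + j : ℕ) : L) = 0 := by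
      push_cast
      rw [← two_mul, h.two, zero_mul]
    rw [this]
    ring
  · obtain ⟨j, rfl⟩ := hk
    refine ⟨x, ?_⟩
    have h1 : ((2 * j + 1 : ℕ) : L) = 1 := by
      push_cast
      rw [h.two]
      ring
    have h2 := h.xk
    rw [h1, Nat.add_sub_cancel]
    rw [pow_succ] at h2
    have h3 : (1 * (x : L) ^ (2 * j) - 1) * (x : L) = (x : L) ^ (2 * j) * (x : L) - (x : L) := by
      ring
    rw [h3, h2]
    ring

theorem hOD (h1 : StLF) : StOD := by
  intro k L _ x hx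
  have hfin : Finite L := h1 k L x hx
  rcases subsingleton_or_nontrivial L with hs | hn
  · exact ⟨1, le_rfl, fun y => Subsingleton.elim _ _⟩
  have hch : CharP L 2 := CharTwo.of_one_ne_zero_of_two_eq_zero one_ne_zero hx.two
  have hpr : Fact (Nat.Prime 2) := ⟨Nat.prime_two⟩
  have key : ∃ s m : ℕ, 1 ≤ m ∧ (x : L) ^ (2 ^ (s + m)) = (x : L) ^ (2 ^ s) := by
    obtain ⟨i, j, hij, he⟩ :=
      Finite.exists_ne_map_eq_of_infinite (fun i : ℕ => (x : L) ^ (2 ^ i))
    rcases Nat.lt_or_gt_of_ne hij with hl | hl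
    · refine ⟨i, j - i, by omega, ?_⟩
      rw [Nat.add_sub_cancel' hl.le]
      exact he.symm
    · refine ⟨j, i - j, by omega, ?_⟩
      rw [Nat.add_sub_cancel' hl.le]
      exact he
  obtain ⟨s, m, hm, he⟩ := key
  have hy : ((x : L) ^ (2 ^ m)) ^ k = (x : L) ^ (2 ^ m) + 1 := by
    rw [← pow_mul, mul_comm, pow_mul, hx.xk, add_pow_char_pow, one_pow]
  obtain ⟨ε, hε⟩ : ∃ ε : L, (x : L) ^ (2 ^ m) = (x : L) + ε := ⟨(x : L) ^ (2 ^ m) - x, by ring⟩
  have hnil : ε ^ (2 ^ s) = 0 := by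
    have h2 : ((x : L) ^ (2 ^ m)) ^ (2 ^ s) = (x : L) ^ (2 ^ s) + ε ^ (2 ^ s) := by
      rw [hε, add_pow_char_pow]
    rw [← pow_mul, ← pow_add, Nat.add_comm m s, he] at h2
    exact (left_eq_add.1 h2)
  obtain ⟨c, hc⟩ := Polynomial.powAddExpansion (x : L) ε k
  obtain ⟨u, hu⟩ := unit_aux hx
  have h3 : ε * ((k : L) * (x : L) ^ (k - 1) - 1) = - (c * ε ^ 2) := by
    rw [hε, hc, hx.xk] at hy
    linear_combination hy
  have h4 : ε = ε * (ε * (-(c * u))) := by
    calc ε = (ε * ((k : L) * (x : L) ^ (k - 1) - 1)) * u := by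
          rw [mul_assoc, hu, mul_one]
      _ = ε * (ε * (-(c * u))) := by
          rw [h3]
          ring
  have h5 : ∀ n : ℕ, ε = ε * (ε * (-(c * u))) ^ n := by
    intro n
    induction n with
    | zero => rw [pow_zero, mul_one]
    | succ n ih =>
      rw [pow_succ', ← mul_assoc, ← h4]
      exact ih
  have h6 : ε = 0 := by
    rw [h5 (2 ^ s), mul_pow, hnil, zero_mul, mul_zero]
  have h7 : (x : L) ^ (2 ^ m) = x := by
    rw [hε, h6, add_zero]
  let N : AddSubgroup L :=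
    { carrier := {y : L | y ^ (2 ^ m) = y}
      zero_mem' := zero_pow (pow_ne_zero m two_ne_zero)
      add_mem' := by
        intro a b ha hb
        change (a + b) ^ (2 ^ m) = a + b
        rw [add_pow_char_pow, show a ^ (2 ^ m) = a from ha, show b ^ (2 ^ m) = b from hb]
      neg_mem' := by
        intro a ha
        change (-a) ^ (2 ^ m) = -a
        rw [CharTwo.neg_eq]
        exact ha }
  refine ⟨m, hm, fun y => ?_⟩
  refine hx.gn N ?_ ?_ y
  · change (1 : L) ^ (2 ^ m) = 1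
    exact one_pow _
  · intro y hy
    change ((x : L) * y) ^ (2 ^ m) = (x : L) * y
    rw [mul_pow, h7, show y ^ (2 ^ m) = y from hy]

end Pool.Agent.Helper84.C2
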